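import Pool.Agent.W279.P4.Blocks

/-!
# The permanent of the entrywise square of a real positive semidefinite 4 x 4 matrix

For every real positive semidefinite `4 x 4` matrix `A`,
`per (A ∘ A) ≤ per A * (a₁₁ a₂₂ a₃₃ a₄₄) ≤ (per A) ^ 2`.
It follows from Soules' permanent-on-top conjecture for `n = 4` (frozen statement S01687, proved by the
team with exact sums of squares: `Pool/Agent/W258/P4`).
-/

set_option autoImplicit false

namespace Pool.Agent.Results.MP_2a4045_co.SquareFour

theorem result (A : Matrix (Fin 4) (Fin 4) ℝ) (hA : A.PosSemidef) :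
    Matrix.permanent (Matrix.of fun i j => A i j ^ 2) ≤ A.permanent * ∏ i, A i i ∧
      A.permanent * ∏ i, A i i ≤ A.permanent ^ 2 :=
  Pool.Agent.W279.P4.square A hA

end Pool.Agent.Results.MP_2a4045_co.SquareFour
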